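import Pool.Agent.H72.Sat.Core

namespace Pool.Agent.H72.Sat

/-- `j : A →+* A'` exhibits `A'` as the completion of `A` at its Jacobson radical `J`: `A'` is
separated and complete for the `J A'`-adic topology, and `A / J ^ n → A' / (J A') ^ n` is bijective
for every `n` (written out elementwise). -/
structure IsCompletion {A A' : Type} [CommRing A] [CommRing A'] (j : A →+* A') : Prop where
  complete : IsAdicComplete ((⊥ : Ideal A).jacobson.map j) A'
  inj : ∀ (n : ℕ) (a : A), j a ∈ ((⊥ : Ideal A).jacobson.map j) ^ n → a ∈ (⊥ : Ideal A).jacobson ^ n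
  surj : ∀ (n : ℕ) (b : A'), ∃ a : A, b - j a ∈ ((⊥ : Ideal A).jacobson.map j) ^ n

/-- transport of `IsCompletion` along ring isomorphisms -/
lemma IsCompletion.transfer {A A' B B' : Type} [CommRing A] [CommRing A'] [CommRing B]
    [CommRing B'] {j0 : A →+* A'} {j : B →+* B'} (e : A ≃+* B) (e' : A' ≃+* B')
    (comm : ∀ a, j (e a) = e' (j0 a)) (h : IsCompletion j0) : IsCompletion j := by
  have hJ : (⊥ : Ideal B).jacobson = ((⊥ : Ideal A).jacobson).map (e : A →+* B) := by
    rw [Ideal.map_jacobson_of_bijective (f := (e : A →+* B)) e.bijective, Ideal.map_bot]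
  have hcomp : j.comp (e : A →+* B) = (e' : A' →+* B').comp j0 := by
    ext a
    exact comm a
  have hJ' : ((⊥ : Ideal B).jacobson).map j =
      (((⊥ : Ideal A).jacobson).map j0).map (e' : A' →+* B') := by
    rw [hJ, Ideal.map_map, Ideal.map_map, hcomp]
  have hmem' : ∀ (n : ℕ) (b : A'), e' b ∈ (((⊥ : Ideal B).jacobson).map j) ^ n ↔
      b ∈ (((⊥ : Ideal A).jacobson).map j0) ^ n := by
    intro n b
    rw [hJ', ← Ideal.map_pow]
    constructor
    · intro hb
      obtain ⟨c, hc, hc'⟩ := (Ideal.mem_map_iff_of_surjective (e' : A' →+* B') e'.surjective).1 hb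
      have : c = b := e'.injective hc'
      rwa [← this]
    · intro hb
      exact Ideal.mem_map_of_mem (e' : A' →+* B') hb
  have hmem : ∀ (n : ℕ) (b : A), e b ∈ ((⊥ : Ideal B).jacobson) ^ n ↔
      b ∈ ((⊥ : Ideal A).jacobson) ^ n := by
    intro n b
    rw [hJ, ← Ideal.map_pow]
    constructor
    · intro hb
      obtain ⟨c, hc, hc'⟩ := (Ideal.mem_map_iff_of_surjective (e : A →+* B) e.surjective).1 hb
      have : c = b := e.injective hc'
      rwa [← this]
    · intro hb
      exact Ideal.mem_map_of_mem (e : A →+* B) hb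
  refine ⟨?_, ?_, ?_⟩
  · rw [hJ']
    have := h.complete
    exact (IsAdicComplete.congr_ringEquiv _ e').2 this
  · intro n b hb
    obtain ⟨a, rfl⟩ := e.surjective b
    rw [comm, hmem'] at hb
    rw [hmem]
    exact h.inj n a hb
  · intro n b
    obtain ⟨b, rfl⟩ := e'.surjective b
    obtain ⟨a, ha⟩ := h.surj n b
    refine ⟨e a, ?_⟩
    rw [comm, ← map_sub, hmem']
    exact ha

lemma smod_iff {R : Type} [CommRing R] {I : Ideal R} {x y : R} {n : ℕ} :
    x ≡ y [SMOD (I ^ n • ⊤ : Submodule R R)] ↔ x - y ∈ I ^ n := by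
  rw [SModEq.sub_mem, smul_eq_mul, Ideal.mul_top]

variable {k : Type} [Field k] {m : ℕ} {A A' : Type} [CommRing A] [CommRing A'] (D : Datum k m A)
  (D' : Datum k m A') (ι : A →+* A')

/-- compatibility of data along a ring map -/
structure Compat : Prop where
  hε : ∀ f, D'.ε (ι f) = D.ε f
  hδ : ∀ f, D'.δ (ι f) = D.δ f
  hh : ι D.h = D'.h
  hx : ∀ i, ι (D.x i) = D'.x i
  hy : ι D.y = D'.y

variable {D D' ι} (C : Compat D D' ι)

include C in
lemma Compat.mem {z : Fin 3 → A} (hz : z ∈ G0 D) : (fun i => ι (z i)) ∈ G0 D' := by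
  obtain ⟨h1, a, h2, h3⟩ := hz
  refine ⟨?_, ι a, ?_, ?_⟩
  · rw [C.hε, C.hε, h1]
  · rw [← map_sub, h2, map_mul, C.hh]
  · rw [C.hε, C.hδ, C.hδ, h3]

/-- the induced map -/
def j0 : G0 D →+* G0 D' :=
  RingHom.codRestrict ((ι.compLeft (Fin 3)).comp (G0 D).val.toRingHom) (G0 D')
    (fun z => C.mem z.2)

lemma j0_apply (z : G0 D) (i : Fin 3) : (j0 C z).1 i = ι (z.1 i) := rfl

include C in
lemma Compat.map_m0 : (m0 D).map ι = m0 D' := by
  rw [m0_eq, m0_eq, Ideal.map_span]
  congr 1
  rw [Set.image_insert_eq, C.hy, ← Set.range_comp]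
  congr 2
  funext i
  exact C.hx i

lemma map_J : (J0 D).map (j0 C) = J0 D' := by
  apply le_antisymm
  · rw [Ideal.map_le_iff_le_comap]
    intro z hz
    rw [Ideal.mem_comap, mem_J0, j0_apply, C.hε]
    exact hz
  · intro z hz
    obtain ⟨a, b, c, d, h⟩ := gen D' z
    obtain ⟨α, β, hαβ⟩ := D'.ker _ hz
    have halg : ∀ f, algebraMap A' (G0 D') (ι f) = j0 C (algebraMap A (G0 D) f) := by
      intro f
      apply Subtype.ext
      funext i
      rfl
    have e1 : ∀ l, g1 D' l = j0 C (g1 D l) := by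
      intro l
      apply Subtype.ext
      funext i
      change _ = ι ((g1 D l).1 i)
      fin_cases i <;> simp [g1, C.hx]
    have e2 : g2 D' = j0 C (g2 D) := by
      apply Subtype.ext
      funext i
      change _ = ι ((g2 D).1 i)
      fin_cases i <;> simp [g2, C.hy, C.hh]
    have e3 : ∀ l, g3 D' l = j0 C (g3 D l) := by
      intro l
      apply Subtype.ext
      funext i
      change _ = ι ((g3 D l).1 i)
      fin_cases i <;> simp [g3, C.hx, C.hh]
    have e4 : g4 D' = j0 C (g4 D) := by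
      apply Subtype.ext
      funext i
      change _ = ι ((g4 D).1 i)
      fin_cases i <;> simp [g4, C.hy, C.hh]
    have hm : ∀ g : G0 D, g ∈ J0 D → ∀ r : A', algebraMap A' (G0 D') r * j0 C g ∈
        (J0 D).map (j0 C) := fun g hg r => Ideal.mul_mem_left _ _ (Ideal.mem_map_of_mem _ hg)
    have e0 : algebraMap A' (G0 D') (z.1 2) =
        (∑ i, algebraMap A' (G0 D') (α i) * j0 C (algebraMap A (G0 D) (D.x i))) +
        algebraMap A' (G0 D') β * j0 C (algebraMap A (G0 D) D.y) := by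
      rw [hαβ, map_add, map_mul, map_sum, ← C.hy, halg]
      congr 1
      apply Finset.sum_congr rfl
      intro i _
      rw [map_mul, ← C.hx, halg]
    rw [h, e0, e2, e4]
    refine Ideal.add_mem _ (Ideal.add_mem _ (Ideal.add_mem _ (Ideal.add_mem _ (Ideal.add_mem _
      ?_ ?_) ?_) ?_) ?_) ?_
    · exact Ideal.sum_mem _ fun i _ => hm _ (D.εx i) (α i)
    · exact hm _ D.εy β
    · refine Ideal.sum_mem _ fun i _ => ?_
      rw [e1]
      refine hm _ ?_ (a i)
      rw [mem_J0]
      simp [g1]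
    · refine hm _ ?_ b
      rw [mem_J0]
      simp [g2]
    · refine Ideal.sum_mem _ fun i _ => ?_
      rw [e3]
      refine hm _ ?_ (c i)
      rw [mem_J0]
      simp [g3]
    · refine hm _ ?_ d
      rw [mem_J0]
      simp [g4]

theorem completion_G0 [IsDomain A'] (hι : IsCompletion ι) (hh : D'.h ≠ 0) :
    IsCompletion (j0 C) := by
  have hc : IsAdicComplete (m0 D') A' := by
    have := hι.complete
    rwa [jacobson_A D, C.map_m0] at this
  have hinj : ∀ (n : ℕ) (a : A), ι a ∈ (m0 D') ^ n → a ∈ (m0 D) ^ n := by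
    have := hι.inj
    rwa [jacobson_A D, C.map_m0] at this
  have hsurj : ∀ (n : ℕ) (b : A'), ∃ a, b - ι a ∈ (m0 D') ^ n := by
    have := hι.surj
    rwa [jacobson_A D, C.map_m0] at this
  have ε1 : ∀ f g : A', f - g ∈ (m0 D') ^ 1 → D'.ε f = D'.ε g := by
    intro f g h
    rw [pow_one, RingHom.mem_ker, map_sub] at h
    exact sub_eq_zero.1 h
  have δ2 : ∀ f g : A', f - g ∈ (m0 D') ^ 2 → D'.δ f = D'.δ g := by
    intro f g h
    have := δ_sq D' h
    rw [map_sub] at this
    exact sub_eq_zero.1 this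
  -- density
  have hdense : ∀ (n : ℕ) (b : G0 D'), ∃ a : G0 D, b - j0 C a ∈ (J0 D') ^ n := by
    intro n b
    obtain ⟨h1, t, h2, h3⟩ := b.2
    obtain ⟨c0, hc0⟩ := hsurj (n + 2) (b.1 2)
    obtain ⟨d0, hd0⟩ := hsurj (n + 2) (b.1 1)
    obtain ⟨t0, ht0⟩ := hsurj (n + 2) t
    have k1 : ∀ {f}, f ∈ (m0 D') ^ (n + 2) → f ∈ (m0 D') ^ 1 :=
      fun h => Ideal.pow_le_pow_right (by omega) h
    have k2 : ∀ {f}, f ∈ (m0 D') ^ (n + 2) → f ∈ (m0 D') ^ 2 :=
      fun h => Ideal.pow_le_pow_right (by omega) h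
    have hmem : (![d0 + D.h * t0, d0, c0] : Fin 3 → A) ∈ G0 D := by
      refine ⟨?_, t0, by simp, ?_⟩
      · simp only [Matrix.cons_val_one, Matrix.cons_val_zero, Matrix.cons_val]
        rw [← C.hε, ← C.hε, ← ε1 _ _ (k1 hd0), ← ε1 _ _ (k1 hc0)]
        exact h1
      · simp only [Matrix.cons_val_one, Matrix.cons_val_zero, Matrix.cons_val]
        rw [← C.hε, ← C.hδ, ← C.hδ, ← ε1 _ _ (k1 ht0), ← δ2 _ _ (k2 hc0), ← δ2 _ _ (k2 hd0)]
        exact h3
    refine ⟨⟨_, hmem⟩, ?_⟩
    have : b - j0 C ⟨_, hmem⟩ ∈ (J0 D') ^ (n + 1) := by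
      refine small_mem D' _ (t - ι t0) ?_ ?_ ?_ ?_
      · change b.1 0 - ι (d0 + D.h * t0) - (b.1 1 - ι d0) = _
        rw [map_add, map_mul, C.hh]
        linear_combination h2
      · change b.1 2 - ι c0 ∈ _
        exact hc0
      · change b.1 1 - ι d0 ∈ _
        exact hd0
      · exact Ideal.pow_le_pow_right (by omega) ht0
    exact Ideal.pow_le_pow_right (by omega) this
  refine ⟨?_, ?_, ?_⟩
  · rw [jacobson_G0, map_J]
    refine { haus' := ?_, prec' := ?_ }
    · intro z hz
      have hz' : ∀ n, z ∈ (J0 D') ^ n := by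
        intro n
        have := smod_iff.1 (hz n)
        rwa [sub_zero] at this
      apply Subtype.ext
      funext i
      change z.1 i = 0
      apply hc.haus'
      intro n
      rw [smod_iff, sub_zero]
      exact (small_coord D' z (hz' n)).1 i
    · intro f hf
      have hf' : ∀ {m n : ℕ}, m ≤ n → f m - f n ∈ (J0 D') ^ m := fun h => smod_iff.1 (hf h)
      have hch : ∀ m, ∃ a, (f m).1 0 - (f m).1 1 = D'.h * a ∧
          D'.ε a = D'.δ ((f m).1 1) - D'.δ ((f m).1 2) := fun m => (f m).2.2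
      choose a ha1 ha2 using hch
      have hcoord : ∀ {m n : ℕ}, m ≤ n → ∀ i, (f m).1 i - (f n).1 i ∈ (m0 D') ^ m :=
        fun h i => (small_coord D' _ (hf' h)).1 i
      have hacoord : ∀ {m n : ℕ}, m ≤ n → a (m + 1) - a (n + 1) ∈ (m0 D') ^ m := by
        intro m n h
        obtain ⟨t, ht, ht'⟩ := (small_coord D' _ (hf' (show m + 1 ≤ n + 1 by omega))).2
        have : D'.h * (a (m + 1) - a (n + 1)) = D'.h * t := by
          rw [← ht']
          change _ = (f (m + 1)).1 0 - (f (n + 1)).1 0 - ((f (m + 1)).1 1 - (f (n + 1)).1 1)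
          linear_combination (-1 : A') * (ha1 (m + 1)) + ha1 (n + 1)
        rw [mul_left_cancel₀ hh this]
        simpa using ht
      obtain ⟨c, hcL⟩ := hc.prec' (fun m => (f m).1 2) (fun h => smod_iff.2 (hcoord h 2))
      obtain ⟨d, hdL⟩ := hc.prec' (fun m => (f m).1 1) (fun h => smod_iff.2 (hcoord h 1))
      obtain ⟨t, htL⟩ := hc.prec' (fun m => a (m + 1)) (fun h => smod_iff.2 (hacoord h))
      have hcL' : ∀ n, (f n).1 2 - c ∈ (m0 D') ^ n := fun n => smod_iff.1 (hcL n)
      have hdL' : ∀ n, (f n).1 1 - d ∈ (m0 D') ^ n := fun n => smod_iff.1 (hdL n)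
      have htL' : ∀ n, a (n + 1) - t ∈ (m0 D') ^ n := fun n => smod_iff.1 (htL n)
      have hL : (![d + D'.h * t, d, c] : Fin 3 → A') ∈ G0 D' := by
        refine ⟨?_, t, by simp, ?_⟩
        · simp only [Matrix.cons_val_one, Matrix.cons_val_zero, Matrix.cons_val]
          rw [← ε1 _ _ (hdL' 1), ← ε1 _ _ (hcL' 1)]
          exact (f 1).2.1
        · simp only [Matrix.cons_val_one, Matrix.cons_val_zero, Matrix.cons_val]
          rw [← ε1 _ _ (htL' 1), ← δ2 _ _ (hdL' 2), ← δ2 _ _ (hcL' 2)]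
          exact ha2 2
      refine ⟨⟨_, hL⟩, fun n => ?_⟩
      rw [smod_iff]
      have e : f n - ⟨_, hL⟩ = (f n - f (n + 3)) + (f (n + 3) - ⟨_, hL⟩) := by
        rw [sub_add_sub_cancel]
      rw [e]
      refine Ideal.add_mem _ (hf' (by omega)) ?_
      have : f (n + 3) - ⟨_, hL⟩ ∈ (J0 D') ^ (n + 1) := by
        refine small_mem D' _ (a (n + 3) - t) ?_ ?_ ?_ ?_
        · change (f (n + 3)).1 0 - (d + D'.h * t) - ((f (n + 3)).1 1 - d) = _
          linear_combination ha1 (n + 3)
        · change (f (n + 3)).1 2 - c ∈ _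
          exact Ideal.pow_le_pow_right (by omega) (hcL' (n + 3))
        · change (f (n + 3)).1 1 - d ∈ _
          exact Ideal.pow_le_pow_right (by omega) (hdL' (n + 3))
        · exact Ideal.pow_le_pow_right (by omega) (htL' (n + 2))
      exact Ideal.pow_le_pow_right (by omega) this
  · rw [jacobson_G0, map_J]
    intro n z hz
    -- every element of `(J0 D') ^ n` is `j0 t` plus a very small element
    have key : ∀ N, ∀ w ∈ (J0 D') ^ n, ∃ t ∈ (J0 D) ^ n, w - j0 C t ∈ (J0 D') ^ N := by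
      intro N w hw
      rw [← map_J C, ← Ideal.map_pow, Ideal.map, ] at hw
      refine Submodule.span_induction ?_ ?_ ?_ ?_ hw
      · rintro _ ⟨t, ht, rfl⟩
        exact ⟨t, ht, by simp⟩
      · exact ⟨0, Ideal.zero_mem _, by simp⟩
      · rintro x y _ _ ⟨t, ht, ht'⟩ ⟨s, hs, hs'⟩
        refine ⟨t + s, Ideal.add_mem _ ht hs, ?_⟩
        have : x + y - j0 C (t + s) = (x - j0 C t) + (y - j0 C s) := by
          rw [map_add]; ring
        rw [this]
        exact Ideal.add_mem _ ht' hs'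
      · rintro g x _ ⟨t, ht, ht'⟩
        obtain ⟨g0, hg0⟩ := hdense N g
        refine ⟨g0 * t, Ideal.mul_mem_left _ _ ht, ?_⟩
        have : g • x - j0 C (g0 * t) = g * (x - j0 C t) + j0 C t * (g - j0 C g0) := by
          rw [map_mul, smul_eq_mul]; ring
        rw [this]
        exact Ideal.add_mem _ (Ideal.mul_mem_left _ _ ht') (Ideal.mul_mem_left _ _ hg0)
    obtain ⟨t, ht, ht'⟩ := key (n + 3) _ hz
    rw [← map_sub] at ht'
    obtain ⟨h1, s, hs, hs'⟩ := small_coord D' _ ht'
    obtain ⟨_, b, hb, _⟩ := (z - t).2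
    have hbs : ι b = s := by
      apply mul_left_cancel₀ hh
      rw [← hs', ← C.hh, ← map_mul, ← hb, map_sub]
      rfl
    have : z - t ∈ (J0 D) ^ (n + 1) := by
      refine small_mem D _ b hb ?_ ?_ ?_
      · apply hinj
        exact Ideal.pow_le_pow_right (by omega) (h1 2)
      · apply hinj
        exact Ideal.pow_le_pow_right (by omega) (h1 1)
      · apply hinj
        rw [hbs]
        exact Ideal.pow_le_pow_right (by omega) hs
    have e : z = t + (z - t) := by ring
    rw [e]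
    exact Ideal.add_mem _ ht (Ideal.pow_le_pow_right (by omega) this)
  · rw [jacobson_G0, map_J]
    exact hdense

end Pool.Agent.H72.Sat
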