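import Mathlib

/-!
Auxiliary algebra for the saturation counterexamples `MP_4fa782_ag` in all dimensions. This is a
generalisation of the library file `Pool.Graph.R_pool_sql_team_5be1d20b.H28.SatCore` from two
generators `x, y` of the maximal ideal and the field `ℚ` to any number of generators and any field.
-/

set_option autoImplicit false

namespace Pool.Agent.H72.Sat

/-- A ring with a `k`-rational point `ε`, a tangent vector `δ` at it, generators `x i, y` of the
kernel of `ε`, and an element `h` vanishing to order two. -/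
structure Datum (k : Type) [Field k] (m : ℕ) (A : Type) [CommRing A] where
  ε : A →+* k
  δ : A →+ k
  δ_mul : ∀ f g, δ (f * g) = ε f * δ g + δ f * ε g
  h : A
  x : Fin m → A
  y : A
  εh : ε h = 0
  δh : δ h = 0
  εx : ∀ i, ε (x i) = 0
  εy : ε y = 0
  δx : ∀ i, δ (x i) = 0
  δy : δ y = 1
  ker : ∀ f, ε f = 0 → ∃ (a : Fin m → A) (b : A), f = (∑ i, a i * x i) + b * y
  unit : ∀ f, ε f ≠ 0 → IsUnit f

variable {k : Type} [Field k] {m : ℕ} {A : Type} [CommRing A] (D : Datum k m A)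

/-- the ring `o` inside `A³` -/
def G0 : Subalgebra A (Fin 3 → A) where
  carrier := {z | D.ε (z 1) = D.ε (z 2) ∧ ∃ a, z 0 - z 1 = D.h * a ∧
    D.ε a = D.δ (z 1) - D.δ (z 2)}
  mul_mem' := by
    rintro z w ⟨hz1, a, hz2, hz3⟩ ⟨hw1, b, hw2, hw3⟩
    refine ⟨?_, a * w 0 + z 1 * b, ?_, ?_⟩
    · simp only [Pi.mul_apply, map_mul]
      rw [hz1, hw1]
    · simp only [Pi.mul_apply]
      linear_combination (w 0) * hz2 + (z 1) * hw2
    · have hw0 : D.ε (w 0) = D.ε (w 1) := by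
        have : D.ε (w 0 - w 1) = 0 := by rw [hw2, map_mul, D.εh, zero_mul]
        rw [map_sub] at this
        exact sub_eq_zero.1 this
      simp only [Pi.mul_apply, map_add, map_mul, D.δ_mul]
      rw [hz3, hw3, hw0, ← hz1, ← hw1]
      ring
  add_mem' := by
    rintro z w ⟨hz1, a, hz2, hz3⟩ ⟨hw1, b, hw2, hw3⟩
    refine ⟨?_, a + b, ?_, ?_⟩
    · simp only [Pi.add_apply, map_add]
      rw [hz1, hw1]
    · simp only [Pi.add_apply]
      linear_combination hz2 + hw2
    · simp only [Pi.add_apply, map_add]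
      rw [hz3, hw3]
      ring
  algebraMap_mem' := by
    intro r
    exact ⟨rfl, 0, by simp, by simp⟩

lemma mem_G0 {z : Fin 3 → A} : z ∈ G0 D ↔ D.ε (z 1) = D.ε (z 2) ∧ ∃ a, z 0 - z 1 = D.h * a ∧
    D.ε a = D.δ (z 1) - D.δ (z 2) := Iff.rfl

lemma ε_eq {z : Fin 3 → A} (hz : z ∈ G0 D) (i : Fin 3) : D.ε (z i) = D.ε (z 2) := by
  obtain ⟨h1, a, h2, _⟩ := hz
  have h0 : D.ε (z 0) = D.ε (z 1) := by
    have : D.ε (z 0 - z 1) = 0 := by rw [h2, map_mul, D.εh, zero_mul]
    rw [map_sub] at this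
    exact sub_eq_zero.1 this
  fin_cases i
  · exact h0.trans h1
  · exact h1
  · rfl

lemma δ_inv {f g : A} (hfg : f * g = 1) : D.δ g = - D.δ f * (D.ε g) ^ 2 := by
  have h1 : D.δ 1 = 0 := by
    have := D.δ_mul 1 1
    rw [mul_one, map_one D.ε, one_mul, mul_one] at this
    linear_combination (-1 : k) * this
  have h2 := D.δ_mul f g
  rw [hfg, h1] at h2
  have h3 : D.ε f * D.ε g = 1 := by rw [← map_mul, hfg, map_one]
  have h4 : D.ε g * (D.ε f * D.δ g + D.δ f * D.ε g) = 0 := by rw [← h2, mul_zero]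
  linear_combination h4 - D.δ g * h3

/-- elements with nonzero residue are units of `G0` -/
lemma isUnit_G0 (z : G0 D) (hz : D.ε (z.1 2) ≠ 0) : IsUnit z := by
  obtain ⟨z, hz'⟩ := z
  have hu : ∀ i, ∃ w, z i * w = 1 := by
    intro i
    have : D.ε (z i) ≠ 0 := by rw [ε_eq D hz']; exact hz
    obtain ⟨u, hu⟩ := D.unit _ this
    exact ⟨((u⁻¹ : Aˣ) : A), by rw [← hu]; simp⟩
  choose w hw using hu
  have hwm : w ∈ G0 D := by
    obtain ⟨h1, a, h2, h3⟩ := hz'
    have e1 : D.ε (z 1) * D.ε (w 1) = 1 := by rw [← map_mul, hw, map_one]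
    have e2 : D.ε (z 2) * D.ε (w 2) = 1 := by rw [← map_mul, hw, map_one]
    have e0 : D.ε (z 0) * D.ε (w 0) = 1 := by rw [← map_mul, hw, map_one]
    have ez0 : D.ε (z 0) = D.ε (z 2) := ε_eq D ⟨h1, a, h2, h3⟩ 0
    have e12 : D.ε (w 1) = D.ε (w 2) := by
      rw [h1] at e1
      have : D.ε (z 2) * (D.ε (w 1) - D.ε (w 2)) = 0 := by linear_combination e1 - e2
      rcases mul_eq_zero.1 this with h | h
      · exact absurd h hz
      · exact sub_eq_zero.1 h
    have e02 : D.ε (w 0) = D.ε (w 2) := by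
      rw [ez0] at e0
      have : D.ε (z 2) * (D.ε (w 0) - D.ε (w 2)) = 0 := by linear_combination e0 - e2
      rcases mul_eq_zero.1 this with h | h
      · exact absurd h hz
      · exact sub_eq_zero.1 h
    refine ⟨e12, - (a * w 0 * w 1), ?_, ?_⟩
    · linear_combination (-(w 0 * w 1)) * h2 + (w 1 : A) * hw 0 - w 0 * hw 1
    · have d1 := δ_inv D (hw 1)
      have d2 := δ_inv D (hw 2)
      rw [d1, d2, map_neg, map_mul, map_mul, h3, e02, e12]
      ring
  refine IsUnit.of_mul_eq_one ⟨w, hwm⟩ ?_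
  apply Subtype.ext
  funext i
  exact hw i

/-- the maximal ideal -/
def J0 : Ideal (G0 D) where
  carrier := {z | D.ε (z.1 2) = 0}
  add_mem' := by
    intro a b ha hb
    simp only [Set.mem_ofPred_eq] at ha hb ⊢
    change D.ε (a.1 2 + b.1 2) = 0
    rw [map_add, ha, hb, add_zero]
  zero_mem' := by
    change D.ε 0 = 0
    exact map_zero _
  smul_mem' := by
    intro c z hz
    simp only [Set.mem_ofPred_eq] at hz ⊢
    change D.ε (c.1 2 * z.1 2) = 0
    rw [map_mul, hz, mul_zero]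

lemma mem_J0 {z : G0 D} : z ∈ J0 D ↔ D.ε (z.1 2) = 0 := Iff.rfl

lemma jacobson_G0 : (⊥ : Ideal (G0 D)).jacobson = J0 D := by
  ext z
  rw [Ideal.mem_jacobson_bot, mem_J0]
  constructor
  · intro h
    by_contra hz
    -- choose w with ε(z w) = -1
    obtain ⟨u, hu⟩ := isUnit_G0 D z hz
    have h1 := h (-((u⁻¹ : (G0 D)ˣ) : G0 D))
    have h2 : z * (-((u⁻¹ : (G0 D)ˣ) : G0 D)) + 1 = (0 : G0 D) := by
      rw [← hu]
      have e := Units.mul_inv u
      linear_combination (-1 : G0 D) * e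
    rw [h2, isUnit_zero_iff] at h1
    have h3 : ((1 : G0 D)).1 2 = (0 : G0 D).1 2 := by rw [h1]
    have h4 : D.ε ((1 : G0 D).1 2) = D.ε ((0 : G0 D).1 2) := by rw [h3]
    change D.ε 1 = D.ε 0 at h4
    simp at h4
  · intro hz w
    apply isUnit_G0
    change D.ε (z.1 2 * w.1 2 + 1) ≠ 0
    rw [map_add, map_mul, hz]
    simp

lemma isLocalRing_G0 : IsLocalRing (G0 D) := by
  have : Nontrivial (G0 D) := by
    refine ⟨0, 1, fun h => ?_⟩
    have h4 : D.ε ((0 : G0 D).1 2) = D.ε ((1 : G0 D).1 2) := by rw [h]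
    change D.ε 0 = D.ε 1 at h4
    simp at h4
  apply IsLocalRing.of_isUnit_or_isUnit_one_sub_self
  intro z
  by_cases hz : D.ε (z.1 2) = 0
  · right
    apply isUnit_G0
    change D.ε (1 - z.1 2) ≠ 0
    rw [map_sub, hz]
    simp
  · left
    exact isUnit_G0 D z hz

/-- the maximal ideal of `A` -/
abbrev m0 : Ideal A := RingHom.ker D.ε

lemma δ_sq {f : A} (hf : f ∈ (m0 D) ^ 2) : D.δ f = 0 := by
  rw [sq] at hf
  refine Submodule.mul_induction_on hf ?_ ?_
  · intro a ha b hb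
    rw [RingHom.mem_ker] at ha hb
    rw [D.δ_mul, ha, hb]
    ring
  · intro a b ha hb
    rw [map_add, ha, hb, add_zero]

lemma jacobson_A : (⊥ : Ideal A).jacobson = m0 D := by
  ext f
  rw [Ideal.mem_jacobson_bot, RingHom.mem_ker]
  constructor
  · intro h
    by_contra hf
    obtain ⟨u, hu⟩ := D.unit f hf
    have h1 := h (-((u⁻¹ : Aˣ) : A))
    have h2 : f * (-((u⁻¹ : Aˣ) : A)) + 1 = 0 := by
      rw [← hu, mul_neg, Units.mul_inv, neg_add_cancel]
    rw [h2, isUnit_zero_iff] at h1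
    have h4 : D.ε (0 : A) = D.ε 1 := by rw [h1]
    simp at h4
  · intro hf g
    apply D.unit
    rw [map_add, map_mul, hf]
    simp

lemma m0_eq : m0 D = Ideal.span (insert D.y (Set.range D.x)) := by
  apply le_antisymm
  · intro f hf
    obtain ⟨a, b, hab⟩ := D.ker f hf
    rw [hab]
    exact Ideal.add_mem _ (Ideal.sum_mem _ fun i _ => Ideal.mul_mem_left _ _
      (Ideal.subset_span (Or.inr ⟨i, rfl⟩)))
      (Ideal.mul_mem_left _ _ (Ideal.subset_span (Or.inl rfl)))
  · rw [Ideal.span_le]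
    rintro f (rfl | ⟨i, rfl⟩)
    · exact D.εy
    · exact D.εx i

/-- diagonal elements -/
lemma diag_mem {n : ℕ} {c : A} (hc : c ∈ (m0 D) ^ n) : algebraMap A (G0 D) c ∈ (J0 D) ^ n := by
  have h1 : (m0 D).map (algebraMap A (G0 D)) ≤ J0 D := by
    rw [Ideal.map_le_iff_le_comap]
    intro f hf
    exact hf
  have h2 : algebraMap A (G0 D) c ∈ ((m0 D) ^ n).map (algebraMap A (G0 D)) :=
    Ideal.mem_map_of_mem _ hc
  rw [Ideal.map_pow] at h2
  exact Ideal.pow_right_mono h1 n h2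

lemma v_mem {n : ℕ} {v : A} (hv : v ∈ (m0 D) ^ (n + 2)) :
    ∃ e : G0 D, e ∈ (J0 D) ^ (n + 1) ∧ e.1 = ![v, v, 0] := by
  rw [pow_add] at hv
  refine Submodule.mul_induction_on hv ?_ ?_
  · intro m hm w hw
    have hw' : (![w, w, 0] : Fin 3 → A) ∈ G0 D := by
      refine ⟨?_, 0, by simp, ?_⟩
      · have : D.ε w = 0 := by
          have := Ideal.pow_le_self two_ne_zero hw
          exact this
        simp [this]
      · simp [δ_sq D hw]
    refine ⟨algebraMap A (G0 D) m * ⟨_, hw'⟩, ?_, ?_⟩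
    · rw [pow_succ]
      exact Ideal.mul_mem_mul (diag_mem D hm) (by rw [mem_J0]; simp)
    · funext i
      change m * (![w, w, 0] : Fin 3 → A) i = _
      fin_cases i <;> simp
  · rintro a b ⟨e1, h1, h1'⟩ ⟨e2, h2, h2'⟩
    refine ⟨e1 + e2, Ideal.add_mem _ h1 h2, ?_⟩
    funext i
    change e1.1 i + e2.1 i = _
    rw [h1', h2']
    fin_cases i <;> simp

lemma a_mem {n : ℕ} {a : A} (ha : a ∈ (m0 D) ^ (n + 1)) :
    ∃ e : G0 D, e ∈ (J0 D) ^ (n + 1) ∧ e.1 = ![D.h * a, 0, 0] := by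
  rw [pow_succ] at ha
  refine Submodule.mul_induction_on ha ?_ ?_
  · intro m hm w hw
    have hw' : (![D.h * w, 0, 0] : Fin 3 → A) ∈ G0 D := by
      refine ⟨by simp, w, by simp, ?_⟩
      have : D.ε w = 0 := hw
      simp [this]
    refine ⟨algebraMap A (G0 D) m * ⟨_, hw'⟩, ?_, ?_⟩
    · rw [pow_succ]
      exact Ideal.mul_mem_mul (diag_mem D hm) (by rw [mem_J0]; simp)
    · funext i
      change m * (![D.h * w, 0, 0] : Fin 3 → A) i = _
      fin_cases i
      · simp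
        ring
      · simp
      · simp
  · rintro a b ⟨e1, h1, h1'⟩ ⟨e2, h2, h2'⟩
    refine ⟨e1 + e2, Ideal.add_mem _ h1 h2, ?_⟩
    funext i
    change e1.1 i + e2.1 i = _
    rw [h1', h2']
    fin_cases i
    · simp
      ring
    · simp
    · simp

/-- C1: small coordinates imply small in the `J0`-adic topology -/
lemma small_mem {n : ℕ} (z : G0 D) (a : A) (ha : z.1 0 - z.1 1 = D.h * a)
    (h2 : z.1 2 ∈ (m0 D) ^ (n + 2)) (h1 : z.1 1 ∈ (m0 D) ^ (n + 2)) (ha' : a ∈ (m0 D) ^ (n + 1)) :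
    z ∈ (J0 D) ^ (n + 1) := by
  obtain ⟨e1, he1, he1'⟩ := v_mem D (Ideal.sub_mem _ h1 h2)
  obtain ⟨e2, he2, he2'⟩ := a_mem D ha'
  have h3 : algebraMap A (G0 D) (z.1 2) ∈ (J0 D) ^ (n + 1) :=
    diag_mem D (Ideal.pow_le_pow_right (by omega) h2)
  have : z = algebraMap A (G0 D) (z.1 2) + e1 + e2 := by
    apply Subtype.ext
    funext i
    change z.1 i = z.1 2 + e1.1 i + e2.1 i
    rw [he1', he2']
    fin_cases i
    · simp
      linear_combination ha
    · simp
    · simp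
  rw [this]
  exact Ideal.add_mem _ (Ideal.add_mem _ h3 he1) he2

/-- C2: elements of `J0 ^ n` have small coordinates -/
lemma small_coord {n : ℕ} (z : G0 D) (hz : z ∈ (J0 D) ^ n) :
    (∀ i, z.1 i ∈ (m0 D) ^ n) ∧ ∃ a ∈ (m0 D) ^ (n - 1), z.1 0 - z.1 1 = D.h * a := by
  induction n generalizing z with
  | zero =>
    obtain ⟨_, a, ha, _⟩ := z.2
    exact ⟨fun i => by simp, a, by simp, ha⟩
  | succ n ih =>
    rw [pow_succ'] at hz
    refine Submodule.mul_induction_on hz ?_ ?_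
    · intro z hz w hw
      obtain ⟨h1, a, ha, h2⟩ := ih w hw
      obtain ⟨_, b, hb, _⟩ := z.2
      have hz' : ∀ i, z.1 i ∈ m0 D := by
        intro i
        rw [RingHom.mem_ker, ε_eq D z.2]
        exact hz
      refine ⟨fun i => ?_, b * w.1 0 + z.1 1 * a, ?_, ?_⟩
      · rw [pow_succ']
        exact Ideal.mul_mem_mul (hz' i) (h1 i)
      · rw [Nat.add_sub_cancel]
        apply Ideal.add_mem
        · exact Ideal.mul_mem_left _ _ (h1 0)
        · rcases n with _ | n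
          · simp
          · rw [pow_succ']
            exact Ideal.mul_mem_mul (hz' 1) (by simpa using ha)
      · change z.1 0 * w.1 0 - z.1 1 * w.1 1 = _
        linear_combination (w.1 0) * hb + (z.1 1) * h2
    · rintro z w ⟨h1, a, ha, h2⟩ ⟨h1', a', ha', h2'⟩
      refine ⟨fun i => Ideal.add_mem _ (h1 i) (h1' i), a + a', Ideal.add_mem _ ha ha', ?_⟩
      change z.1 0 + w.1 0 - (z.1 1 + w.1 1) = _
      linear_combination h2 + h2'

/-- the generators of `G0` as a module -/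
def g1 (i : Fin m) : G0 D := ⟨![D.x i, D.x i, 0], by
  refine ⟨by simp [D.εx], 0, by simp, by simp [D.δx]⟩⟩
def g2 : G0 D := ⟨![D.h + D.y, D.y, 0], by
  refine ⟨by simp [D.εy], 1, by simp, by simp [D.δy]⟩⟩
def g3 (i : Fin m) : G0 D := ⟨![D.h * D.x i, 0, 0], by
  refine ⟨by simp, D.x i, by simp, by simp [D.εx]⟩⟩
def g4 : G0 D := ⟨![D.h * D.y, 0, 0], by
  refine ⟨by simp, D.y, by simp, by simp [D.εy]⟩⟩

/-- the coordinates of `G0` -/
def ev (j : Fin 3) : G0 D →+* A := (Pi.evalRingHom (fun _ => A) j).comp (G0 D).val.toRingHom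

lemma ev_apply (j : Fin 3) (z : G0 D) : ev D j z = z.1 j := rfl

lemma ev_alg (j : Fin 3) (a : A) : ev D j (algebraMap A (G0 D) a) = a := rfl

lemma gen (z : G0 D) : ∃ (a : Fin m → A) (b : A) (c : Fin m → A) (d : A),
    z = algebraMap A (G0 D) (z.1 2) +
    (∑ i, algebraMap A (G0 D) (a i) * g1 D i) + algebraMap A (G0 D) b * g2 D +
    (∑ i, algebraMap A (G0 D) (c i) * g3 D i) + algebraMap A (G0 D) d * g4 D := by
  obtain ⟨h1, t, h2, h3⟩ := z.2
  have hv : D.ε (z.1 1 - z.1 2) = 0 := by rw [map_sub, h1, sub_self]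
  obtain ⟨a, b, hab⟩ := D.ker _ hv
  have hs : ∀ a : Fin m → A, D.δ (∑ i, a i * D.x i) = 0 := by
    intro a
    rw [map_sum]
    apply Finset.sum_eq_zero
    intro i _
    rw [D.δ_mul, D.εx, D.δx, mul_zero, mul_zero, add_zero]
  have hδ : D.δ (z.1 1) - D.δ (z.1 2) = D.ε b := by
    rw [← map_sub, hab, map_add, hs, D.δ_mul, D.εy, D.δy]
    ring
  have ht : D.ε (t - b) = 0 := by rw [map_sub, h3, hδ, sub_self]
  obtain ⟨c, d, hcd⟩ := D.ker _ ht
  refine ⟨a, b, c, d, ?_⟩
  apply Subtype.ext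
  funext j
  change ev D j z = ev D j (algebraMap A (G0 D) (z.1 2) +
    (∑ i, algebraMap A (G0 D) (a i) * g1 D i) + algebraMap A (G0 D) b * g2 D +
    (∑ i, algebraMap A (G0 D) (c i) * g3 D i) + algebraMap A (G0 D) d * g4 D)
  simp only [map_add, map_sum, map_mul, ev_alg]
  simp only [ev_apply]
  have hc : ∑ i, c i * (D.h * D.x i) = D.h * ∑ i, c i * D.x i := by
    rw [Finset.mul_sum]
    exact Finset.sum_congr rfl fun i _ => by ring
  fin_cases j
  · simp [g1, g2, g3, g4]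
    rw [hc]
    linear_combination h2 + hab + D.h * hcd
  · simp [g1, g2, g3, g4]
    linear_combination hab
  · simp [g1, g2, g3, g4]

lemma finite_G0 : Module.Finite A (G0 D) := by
  set S : Set (G0 D) := {1, g2 D, g4 D} ∪ Set.range (g1 D) ∪ Set.range (g3 D) with hS
  have hfin : S.Finite := Set.toFinite _
  refine ⟨Submodule.fg_def.2 ⟨S, hfin, ?_⟩⟩
  rw [eq_top_iff]
  rintro z -
  obtain ⟨a, b, c, d, h⟩ := gen D z
  have hs : ∀ g ∈ S, ∀ r : A, algebraMap A (G0 D) r * g ∈ Submodule.span A S := by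
    intro g hg r
    rw [← Algebra.smul_def]
    exact Submodule.smul_mem _ _ (Submodule.subset_span hg)
  rw [h]
  refine Submodule.add_mem _ (Submodule.add_mem _ (Submodule.add_mem _ (Submodule.add_mem _ ?_
    ?_) ?_) ?_) ?_
  · have := hs 1 (by simp [hS]) (z.1 2)
    rwa [mul_one] at this
  · exact Submodule.sum_mem _ fun i _ => hs _ (Or.inl (Or.inr ⟨i, rfl⟩)) _
  · exact hs _ (by simp [hS]) _
  · exact Submodule.sum_mem _ fun i _ => hs _ (Or.inr ⟨i, rfl⟩) _
  · exact hs _ (by simp [hS]) _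

/-- the algebraic heart: if `h` is prime then `G0` is saturated -/
lemma sat_key [IsDomain A] (hp : Prime D.h) {z w : Fin 3 → A} (hz : z ∈ G0 D)
    (hw : ∀ i j, ∃ r, w i - w j = r * (z i - z j)) : w ∈ G0 D := by
  obtain ⟨h1, a, h2, h3⟩ := hz
  obtain ⟨α, hα⟩ := hw 0 1
  obtain ⟨β, hβ⟩ := hw 1 2
  obtain ⟨γ, hγ⟩ := hw 0 2
  refine ⟨?_, a * α, ?_, ?_⟩
  · have : D.ε (w 1 - w 2) = 0 := by rw [hβ, map_mul, map_sub, h1]; ring
    rw [map_sub] at this
    exact sub_eq_zero.1 this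
  · rw [hα, h2]
    ring
  · have hv : D.ε (z 1 - z 2) = 0 := by rw [map_sub, h1, sub_self]
    have e1 : D.δ (w 1) - D.δ (w 2) = D.ε β * D.ε a := by
      rw [← map_sub, hβ, D.δ_mul, hv, h3, map_sub]
      ring
    rw [e1, map_mul]
    by_cases ha : D.ε a = 0
    · rw [ha]; ring
    -- `a` is a unit
    have hunit := D.unit a ha
    have hndvd : ¬ D.h ∣ (z 1 - z 2) := by
      rintro ⟨c, hc⟩
      apply ha
      rw [h3, ← map_sub, hc, D.δ_mul, D.εh, D.δh]
      ring
    have hndvd2 : ¬ D.h ∣ (z 0 - z 2) := by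
      intro hd
      apply hndvd
      have : z 1 - z 2 = (z 0 - z 2) - D.h * a := by linear_combination (-1 : A) * h2
      rw [this]
      exact dvd_sub hd (dvd_mul_right _ _)
    have hdiv : (z 0 - z 2) ∣ D.h * (α - β) := by
      have h4 : (γ - β) * (z 0 - z 2) = (D.h * (α - β)) * a := by
        linear_combination hα + hβ - hγ + (α - β) * h2
      exact (hunit.dvd_mul_right).1 ⟨γ - β, by rw [← h4]; ring⟩
    obtain ⟨e, he⟩ := hdiv
    have h5 : D.h ∣ (z 0 - z 2) * e := ⟨α - β, by rw [← he]⟩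
    rcases hp.dvd_or_dvd h5 with h | ⟨e', he'⟩
    · exact absurd h hndvd2
    · have h6 : α - β = (z 0 - z 2) * e' := by
        have : D.h * (α - β) = D.h * ((z 0 - z 2) * e') := by
          rw [he, he']; ring
        exact mul_left_cancel₀ hp.ne_zero this
      have h7 : D.ε (z 0 - z 2) = 0 := by
        have : z 0 - z 2 = D.h * a + (z 1 - z 2) := by linear_combination h2
        rw [this, map_add, map_mul, D.εh, hv]
        ring
      have h8 : D.ε α - D.ε β = 0 := by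
        rw [← map_sub, h6, map_mul, h7, zero_mul]
      have : D.ε α = D.ε β := sub_eq_zero.1 h8
      rw [this]
      ring

end Pool.Agent.H72.Sat
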