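import Pool.Agent.H72.Sat.Compl

namespace Pool.Agent.H72.Sat

section Defs

variable (R K F Ω : Type) [CommRing R] [Field K] [CommRing F] [Field Ω] [Algebra R K]
  [Algebra K F] [Algebra K Ω]

/-- `F*`: the compositum in `Ω` of the images `ψ(F)` of all `K`-algebra homomorphisms `F → Ω`. -/
def compositum : IntermediateField K Ω :=
  IntermediateField.adjoin K (⋃ ψ : F →ₐ[K] Ω, Set.range ψ)

/-- `o*`: the integral closure of `R` in `F*`. -/
def oStar : Set Ω :=
  {t | t ∈ compositum K F Ω ∧ ((algebraMap K Ω).comp (algebraMap R K)).IsIntegralElem t}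

/-- `η` dominates `ζ` with respect to `K`. -/
def Dominates (ζ η : F) : Prop :=
  ∀ ψ₁ ψ₂ : F →ₐ[K] Ω, (ψ₁ ζ = ψ₂ ζ → ψ₁ η = ψ₂ η) ∧
    (ψ₁ ζ ≠ ψ₂ ζ → (ψ₁ η - ψ₂ η) / (ψ₁ ζ - ψ₂ ζ) ∈ oStar R K F Ω)

/-- The ring `T` (with total ring of quotients `F`) is saturated with respect to `K`: every
element of `F` integral over `T` that dominates some element of `T` lies in `T`. -/
def IsSaturated (T : Subring F) : Prop :=
  ∀ η : F, IsIntegral T η → (∃ ζ ∈ T, Dominates R K F Ω ζ η) → η ∈ T

/-- The saturation of `o`: the smallest saturated ring between `o` and its integral closure. -/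
def saturation (o : Subring F) : Subring F :=
  sInf {T | o ≤ T ∧ (∀ t ∈ T, IsIntegral o t) ∧ IsSaturated R K F Ω T}

variable {R K F Ω}

lemma integral_mono {S T : Subring F} (h : S ≤ T) {t : F} (ht : IsIntegral S t) :
    IsIntegral T t := by
  exact IsIntegral.map_of_comp_eq (Subring.inclusion h) (RingHom.id F) (by ext x; rfl) ht

lemma saturation_eq {o : Subring F} (h : IsSaturated R K F Ω o) : saturation R K F Ω o = o := by
  apply le_antisymm
  · apply sInf_le
    refine ⟨le_rfl, fun t ht => ?_, h⟩
    exact isIntegral_algebraMap (R := o) (A := F) (x := ⟨t, ht⟩)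
  · apply le_sInf
    intro T hT
    exact hT.1

lemma lt_saturation {o : Subring F} (h : ¬ IsSaturated R K F Ω o) :
    o < saturation R K F Ω o := by
  have hle : o ≤ saturation R K F Ω o := le_sInf fun T hT => hT.1
  refine lt_of_le_of_ne hle fun heq => h ?_
  rw [heq]
  intro η hη hζ
  obtain ⟨ζ, hζ, hd⟩ := hζ
  rw [saturation, Subring.mem_sInf]
  intro T hT
  have hle' : saturation R K F Ω o ≤ T := sInf_le hT
  exact hT.2.2 η (integral_mono hle' hη) ⟨ζ, hle' hζ, hd⟩

/-- Conditions (A), (B), (C) on a pair `{o, R}`; `K` is the fraction field of `R` and `F` the total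
ring of quotients of `o`. -/
structure IsPair (k R K F : Type) [Field k] [CharZero k] [CommRing R] [Field K] [CommRing F]
    [Algebra k R] [Algebra R K] [Algebra K F] [Algebra R F] [IsScalarTower R K F] (o : Subring F) :
    Prop where
  /-- `o` is semi-local -/
  semilocal : Finite (MaximalSpectrum o)
  /-- `o` has no nonzero nilpotents -/
  reduced : IsReduced o
  /-- `R` is a regular local ring -/
  regular : IsRegularLocalRing R
  /-- `R` is a domain -/
  isDomain : IsDomain R
  /-- `R` is essentially of finite type over the field `k` of characteristic zero; in particular it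
  contains a field of characteristic zero and is pseudo-geometric (Nagata) -/
  essFinite : Algebra.EssFiniteType k R
  /-- `R ⊆ o` -/
  le : ∀ r : R, algebraMap R F r ∈ o
  /-- `o` is a finite `R`-module -/
  fg : ∃ S : Finset F, (Submodule.span R (S : Set F) : Set F) = (o : Set F)
  /-- `K` is the fraction field of `R` -/
  fractions : IsFractionRing R K
  /-- `F` is the total ring of quotients of `o` -/
  total : IsFractionRing o F

/-- The ring map `θ : F → F'` maps the subring `T` into `T'` and exhibits `T'` as the completion of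
`T` at its Jacobson radical. -/
def IsCompletionIn {F F' : Type} [CommRing F] [CommRing F'] (θ : F →+* F') (T : Subring F)
    (T' : Subring F') : Prop :=
  ∃ h : ∀ x ∈ T, θ x ∈ T', IsCompletion (θ.restrict T T' h)

/-- `{oHat, R'}` is the completion of the pair `{o, R}`; `K'` is the fraction field of `R'` and `F'`
the total ring of quotients of `oHat`, and `θ : F → F'` is compatible with `i : R → R'`. -/
structure IsCompletedPair {R R' F F' : Type} (K' : Type) [CommRing R] [CommRing R'] [CommRing F]
    [CommRing F'] [Field K'] [Algebra R F] [Algebra R' K'] [Algebra K' F'] (i : R →+* R')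
    (θ : F →+* F') (o : Subring F) (oHat : Subring F') : Prop where
  /-- `R'` is the completion of `R` -/
  base : IsCompletion i
  /-- `oHat` is the completion of `o` -/
  ofRing : IsCompletionIn θ o oHat
  /-- `θ` is compatible with `i` -/
  comm : ∀ r, θ (algebraMap R F r) = algebraMap K' F' (algebraMap R' K' (i r))
  /-- `K'` is the fraction field of `R'` -/
  fractions : IsFractionRing R' K'
  /-- `F'` is the total ring of quotients of `oHat` -/
  total : IsFractionRing oHat F'

end Defs

set_option linter.unusedSectionVars false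

/-! ### `K`-algebra homomorphisms from `K³` -/

lemma algHom_pi {K Ω : Type} [Field K] [Field Ω] [Algebra K Ω] (ψ : (Fin 3 → K) →ₐ[K] Ω) :
    ∃ i, ∀ f, ψ f = algebraMap K Ω (f i) := by
  have h1 : ∑ i, ψ (Pi.single i 1) = 1 := by
    rw [← map_sum, Finset.univ_sum_single (fun _ : Fin 3 => (1 : K))]
    exact map_one ψ
  obtain ⟨i, hi⟩ : ∃ i, ψ (Pi.single i 1) ≠ 0 := by
    by_contra hh
    push Not at hh
    rw [Finset.sum_eq_zero (fun i _ => hh i)] at h1
    exact zero_ne_one h1
  have h2 : ∀ j, j ≠ i → ψ (Pi.single j 1) = 0 := by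
    intro j hj
    have : ψ (Pi.single j 1) * ψ (Pi.single i 1) = 0 := by
      rw [← map_mul]
      have : (Pi.single j 1 : Fin 3 → K) * Pi.single i 1 = 0 := by
        funext k
        by_cases hk : k = j
        · subst hk
          simp [hj]
        · simp [hk]
      rw [this, map_zero]
    rcases mul_eq_zero.1 this with h | h
    · exact h
    · exact absurd h hi
  have h3 : ψ (Pi.single i 1) = 1 := by
    rw [Finset.sum_eq_single i (fun j _ hj => h2 j hj) (fun h => absurd (Finset.mem_univ _) h)]
      at h1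
    exact h1
  refine ⟨i, fun f => ?_⟩
  have hf : f = ∑ j, (f j) • (Pi.single j 1 : Fin 3 → K) := by
    funext k
    simp [Finset.sum_apply, Pi.single_apply]
  conv_lhs => rw [hf]
  rw [map_sum, Finset.sum_eq_single i]
  · rw [map_smul, h3, Algebra.smul_def, mul_one]
  · intro j _ hj
    rw [map_smul, h2 j hj, smul_zero]
  · intro h
    exact absurd (Finset.mem_univ _) h

/-- the projection -/
def projHom (K Ω : Type) [Field K] [Field Ω] [Algebra K Ω] (i : Fin 3) :
    (Fin 3 → K) →ₐ[K] Ω := (Algebra.ofId K Ω).comp (Pi.evalAlgHom K (fun _ => K) i)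

lemma projHom_apply {K Ω : Type} [Field K] [Field Ω] [Algebra K Ω] (i : Fin 3) (f : Fin 3 → K) :
    projHom K Ω i f = algebraMap K Ω (f i) := rfl

/-! ### The ring `G` inside `K³` -/

variable {k : Type} [Field k] {m : ℕ} {A : Type} [CommRing A] [IsDomain A] (D : Datum k m A)
  (K : Type) [Field K] [Algebra A K]
  [IsFractionRing A K]

/-- the inclusion `A³ → K³` -/
def inc : (Fin 3 → A) →+* (Fin 3 → K) := (algebraMap A K).compLeft (Fin 3)

lemma inc_apply (z : Fin 3 → A) (i : Fin 3) : inc K z i = algebraMap A K (z i) := rfl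

lemma inc_inj : Function.Injective (inc (A := A) K) := by
  intro z w h
  funext i
  have := congrFun h i
  exact IsFractionRing.injective A K this

/-- the ring `o` as a subring of its total ring of quotients `K³` -/
def G : Subring (Fin 3 → K) := (G0 D).toSubring.map (inc K)

lemma mem_G {f : Fin 3 → K} : f ∈ G D K ↔ ∃ z ∈ G0 D, inc K z = f := Iff.rfl

/-- `G0 → G` -/
def toG : G0 D →+* G D K :=
  RingHom.codRestrict ((inc K).comp (G0 D).val.toRingHom) (G D K) (fun z => ⟨z.1, z.2, rfl⟩)

lemma toG_apply (z : G0 D) : (toG D K z).1 = inc K z.1 := rfl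

lemma toG_bij : Function.Bijective (toG D K) := by
  constructor
  · intro z w h
    apply Subtype.ext
    apply inc_inj K
    exact congrArg Subtype.val h
  · rintro ⟨f, z, hz, rfl⟩
    exact ⟨⟨z, hz⟩, rfl⟩

/-- `G0 ≃ G` -/
noncomputable def eG : G0 D ≃+* G D K := RingEquiv.ofBijective (toG D K) (toG_bij D K)

lemma eG_apply (z : G0 D) : (eG D K z).1 = inc K z.1 := rfl

/-- `h² • anything` lies in `G0` -/
lemma hsq_mem (p : Fin 3 → A) : (fun i => D.h ^ 2 * p i) ∈ G0 D := by
  have e1 : ∀ f, D.ε (D.h ^ 2 * f) = 0 := by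
    intro f
    rw [map_mul, map_pow, D.εh]
    ring
  have e2 : ∀ f, D.δ (D.h ^ 2 * f) = 0 := by
    intro f
    rw [sq, mul_assoc, D.δ_mul, D.δ_mul, map_mul, D.εh, D.δh]
    ring
  refine ⟨by rw [e1, e1], D.h * (p 0 - p 1), by ring, ?_⟩
  rw [e2, e2, map_mul, D.εh]
  ring

lemma isFractionRing_G (hh : D.h ≠ 0) : IsFractionRing (G D K) (Fin 3 → K) := by
  have hinj := IsFractionRing.injective A K
  have hK : algebraMap A K D.h ≠ 0 := by
    intro h
    apply hh
    apply hinj
    rw [h, map_zero]
  refine { map_units := ?_, surj := ?_, exists_of_eq := ?_ }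
  · rintro ⟨g, hg⟩
    -- all components are nonzero
    have hne : ∀ i, g.1 i ≠ 0 := by
      intro i hi
      have hp := hsq_mem D (Pi.single i 1)
      have hz : (⟨inc K _, ⟨_, hp, rfl⟩⟩ : G D K) * g = 0 := by
        apply Subtype.ext
        funext k
        change algebraMap A K (D.h ^ 2 * (Pi.single i 1 : Fin 3 → A) k) * g.1 k = 0
        by_cases hk : k = i
        · subst hk
          rw [hi, mul_zero]
        · rw [Pi.single_eq_of_ne hk, mul_zero, map_zero, zero_mul]
      have h0 := (mem_nonZeroDivisors_iff_right.1 hg) _ hz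
      have h1 : (inc K (fun k => D.h ^ 2 * (Pi.single i 1 : Fin 3 → A) k)) i = 0 := by
        have := congrArg (fun t : G D K => t.1 i) h0
        exact this
      rw [inc_apply, Pi.single_eq_same, mul_one, map_pow] at h1
      exact pow_ne_zero 2 hK h1
    rw [isUnit_iff_exists_inv]
    refine ⟨fun i => (g.1 i)⁻¹, ?_⟩
    funext i
    change g.1 i * (g.1 i)⁻¹ = 1
    exact mul_inv_cancel₀ (hne i)
  · intro f
    obtain ⟨b, hb⟩ := IsLocalization.exist_integer_multiples_of_finite (nonZeroDivisors A) f
    choose p hp using hb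
    have hbne : algebraMap A K (b : A) ≠ 0 := by
      intro h
      have : (b : A) = 0 := by apply hinj; rw [h, map_zero]
      exact nonZeroDivisors.ne_zero b.2 this
    have hs := hsq_mem D (fun _ => (b : A))
    have hsn : (⟨inc K _, ⟨_, hs, rfl⟩⟩ : G D K) ∈ nonZeroDivisors (G D K) := by
      rw [mem_nonZeroDivisors_iff_right]
      intro t ht
      apply Subtype.ext
      funext i
      have h1 := congrArg (fun t : G D K => t.1 i) ht
      change t.1 i * algebraMap A K (D.h ^ 2 * b) = 0 at h1
      rcases mul_eq_zero.1 h1 with h | h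
      · exact h
      · rw [map_mul, map_pow] at h
        exact absurd h (mul_ne_zero (pow_ne_zero 2 hK) hbne)
    refine ⟨(⟨inc K _, ⟨_, hsq_mem D p, rfl⟩⟩, ⟨_, hsn⟩), ?_⟩
    funext i
    change f i * algebraMap A K (D.h ^ 2 * b) = algebraMap A K (D.h ^ 2 * p i)
    rw [map_mul, map_mul, hp i, Algebra.smul_def]
    ring
  · intro x y hxy
    refine ⟨1, ?_⟩
    have : x = y := Subtype.ext hxy
    rw [this]

lemma isReduced_G : IsReduced (G D K) := by
  refine ⟨fun x hx => ?_⟩
  obtain ⟨n, hn⟩ := hx
  apply Subtype.ext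
  funext i
  have h1 := congrArg (fun t : G D K => t.1 i) hn
  change (x.1 ^ n) i = 0 at h1
  rw [Pi.pow_apply] at h1
  exact eq_zero_of_pow_eq_zero h1

end Pool.Agent.H72.Sat
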