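import Pool.Agent.H72.Sat.Pow

set_option autoImplicit false

namespace Pool.Agent.H72.Sat

open MvPolynomial
open Pool.Agent.H83.SatDim (spanFinrank_of_derivations)

variable (k : Type) [Field k] (m : ℕ)

/-- the maximal ideal of the origin -/
noncomputable abbrev PP : Ideal (Pol k m) := RingHom.ker (constantCoeff : Pol k m →+* k)

instance : (PP k m).IsPrime := RingHom.ker_isPrime _

/-- `R`: the local ring of affine `(m + 2)`-space over `k` at the origin -/
def RR : Type := Localization.AtPrime (PP k m)

noncomputable instance : CommRing (RR k m) :=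
  inferInstanceAs (CommRing (Localization.AtPrime (PP k m)))

noncomputable instance : Algebra (Pol k m) (RR k m) :=
  inferInstanceAs (Algebra (Pol k m) (Localization.AtPrime (PP k m)))

noncomputable instance : Algebra k (RR k m) :=
  inferInstanceAs (Algebra k (Localization.AtPrime (PP k m)))

instance : IsLocalization.AtPrime (RR k m) (PP k m) :=
  inferInstanceAs (IsLocalization.AtPrime (Localization.AtPrime (PP k m)) (PP k m))

instance : IsRegularLocalRing (RR k m) :=
  inferInstanceAs (IsRegularLocalRing (Localization.AtPrime (PP k m)))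

instance : Algebra.EssFiniteType k (RR k m) :=
  inferInstanceAs (Algebra.EssFiniteType k (Localization.AtPrime (PP k m)))

instance : IsDomain (RR k m) := inferInstanceAs (IsDomain (Localization.AtPrime (PP k m)))

instance : IsScalarTower k (Pol k m) (RR k m) :=
  inferInstanceAs (IsScalarTower k (Pol k m) (Localization.AtPrime (PP k m)))

variable {k m}

/-- the inclusion of polynomials in power series -/
noncomputable abbrev cc : Pol k m →+* Pw k m := coeToMvPowerSeries.ringHom

lemma cc_const (p : Pol k m) : (DW k m).ε (cc p) = constantCoeff p := by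
  change MvPowerSeries.constantCoeff (p : Pw k m) = _
  exact MvPolynomial.coeff_coe (σ := Fin (m + 2)) p 0

lemma isUnit_cc (s : (PP k m).primeCompl) : IsUnit (cc (s : Pol k m)) := by
  apply (DW k m).unit
  rw [cc_const]
  exact s.2

/-- the inclusion `R → k[[X₀, …, X_{m+1}]]` -/
noncomputable def ι : RR k m →+* Pw k m :=
  IsLocalization.lift (M := (PP k m).primeCompl) isUnit_cc

lemma ι_alg (p : Pol k m) : ι (algebraMap (Pol k m) (RR k m) p) = cc p :=
  IsLocalization.lift_eq _ _

lemma PP_eq (p : Pol k m) (hp : p ∈ PP k m) :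
    ∃ (a : Fin (m + 1) → Pol k m) (b : Pol k m), p = (∑ i, a i * X i.succ) + b * X 0 := by
  have h1 : p ∈ (idealOfVars (Fin (m + 2)) k) ^ 1 := by
    rw [mem_pow_idealOfVars_iff']
    intro x hx
    have h3 : x = 0 := (Finsupp.degree_eq_zero_iff _).1 (by omega)
    rw [h3]
    exact hp
  rw [pow_one] at h1
  obtain ⟨c, hc⟩ := (Ideal.mem_span_range_iff_exists_fun).1 h1
  refine ⟨fun i => c i.succ, c 0, ?_⟩
  rw [← hc, Fin.sum_univ_succ, add_comm]

/-- the polynomial `h` -/
noncomputable def hpol : Pol k m := X 0 ^ 2 - X 1 * X 0 + X 1 ^ 3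

lemma cc_h : cc (hpol : Pol k m) = (DW k m).h := by
  unfold hpol
  rw [map_add, map_sub, map_mul, map_pow, map_pow]
  simp only [coeToMvPowerSeries.ringHom_apply, coe_X]
  rfl

lemma cc_X (i : Fin (m + 2)) : cc (X i : Pol k m) = MvPowerSeries.X i := by
  simp only [coeToMvPowerSeries.ringHom_apply, coe_X]

variable (k m) in
/-- the datum on `R` -/
noncomputable def DR : Datum k (m + 1) (RR k m) where
  ε := (DW k m).ε.comp ι
  δ := (DW k m).δ.comp (ι (k := k) (m := m)).toAddMonoidHom
  δ_mul := by
    intro f g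
    change (DW k m).δ (ι (f * g)) =
      (DW k m).ε (ι f) * (DW k m).δ (ι g) + (DW k m).δ (ι f) * (DW k m).ε (ι g)
    rw [map_mul, (DW k m).δ_mul]
  h := algebraMap (Pol k m) (RR k m) hpol
  x := fun i => algebraMap (Pol k m) (RR k m) (X i.succ)
  y := algebraMap (Pol k m) (RR k m) (X 0)
  εh := by
    change (DW k m).ε (ι _) = 0
    rw [ι_alg, cc_h, (DW k m).εh]
  δh := by
    change (DW k m).δ (ι _) = 0
    rw [ι_alg, cc_h, (DW k m).δh]
  εx := by
    intro i
    change (DW k m).ε (ι _) = 0
    rw [ι_alg, cc_X]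
    exact (DW k m).εx i
  εy := by
    change (DW k m).ε (ι _) = 0
    rw [ι_alg, cc_X]
    exact (DW k m).εy
  δx := by
    intro i
    change (DW k m).δ (ι _) = 0
    rw [ι_alg, cc_X]
    exact (DW k m).δx i
  δy := by
    change (DW k m).δ (ι _) = 1
    rw [ι_alg, cc_X]
    exact (DW k m).δy
  ker := by
    intro f hf
    change (DW k m).ε (ι f) = 0 at hf
    obtain ⟨⟨p, s⟩, hps⟩ := IsLocalization.surj (PP k m).primeCompl f
    have hu : IsUnit (algebraMap (Pol k m) (RR k m) s) := IsLocalization.map_units (RR k m) s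
    obtain ⟨u, hu⟩ := hu.exists_right_inv
    have hp : p ∈ PP k m := by
      have h1 : (DW k m).ε (ι (f * algebraMap (Pol k m) (RR k m) s)) =
          (DW k m).ε (ι (algebraMap (Pol k m) (RR k m) p)) := by
        rw [hps]
      rw [map_mul, map_mul, hf, zero_mul, ι_alg, cc_const] at h1
      exact h1.symm
    obtain ⟨a, b, hab⟩ := PP_eq p hp
    refine ⟨fun i => algebraMap (Pol k m) (RR k m) (a i) * u,
      algebraMap (Pol k m) (RR k m) b * u, ?_⟩
    have h2 : f = f * (algebraMap (Pol k m) (RR k m) s * u) := by rw [hu, mul_one]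
    rw [h2, ← mul_assoc, hps]
    change algebraMap (Pol k m) (RR k m) p * u = _
    rw [hab, map_add, map_mul, map_sum, add_mul, Finset.sum_mul]
    congr 1
    · apply Finset.sum_congr rfl
      intro i _
      rw [map_mul]
      ring
    · ring
  unit := by
    intro f hf
    change (DW k m).ε (ι f) ≠ 0 at hf
    obtain ⟨⟨p, s⟩, hps⟩ := IsLocalization.surj (PP k m).primeCompl f
    have hp : p ∈ (PP k m).primeCompl := by
      intro hp
      have h1 : (DW k m).ε (ι (f * algebraMap (Pol k m) (RR k m) s)) =
          (DW k m).ε (ι (algebraMap (Pol k m) (RR k m) p)) := by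
        rw [hps]
      rw [map_mul, map_mul, ι_alg, ι_alg, cc_const, cc_const] at h1
      have hp' : constantCoeff p = 0 := hp
      rw [hp'] at h1
      rcases mul_eq_zero.1 h1 with h | h
      · exact hf h
      · exact s.2 h
    have h2 : IsUnit (f * algebraMap (Pol k m) (RR k m) s) := by
      rw [hps]
      exact IsLocalization.map_units (RR k m) (⟨p, hp⟩ : (PP k m).primeCompl)
    exact isUnit_of_mul_isUnit_left h2

lemma compat : Compat (DR k m) (DW k m) ι where
  hε := fun _ => rfl
  hδ := fun _ => rfl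
  hh := by
    change ι (algebraMap (Pol k m) (RR k m) hpol) = (DW k m).h
    rw [ι_alg, cc_h]
  hx := by
    intro i
    change ι (algebraMap (Pol k m) (RR k m) (X i.succ)) = _
    rw [ι_alg, cc_X]
    rfl
  hy := by
    change ι (algebraMap (Pol k m) (RR k m) (X 0)) = _
    rw [ι_alg, cc_X]
    rfl

lemma completion_ι : IsCompletion (ι (k := k) (m := m)) := by
  refine ⟨?_, ?_, ?_⟩
  · rw [jacobson_A (DR k m), compat.map_m0]
    exact complete_m0
  · rw [jacobson_A (DR k m), compat.map_m0]
    intro n f hf
    obtain ⟨⟨p, s⟩, hps⟩ := IsLocalization.surj (PP k m).primeCompl f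
    have hu : IsUnit (algebraMap (Pol k m) (RR k m) s) := IsLocalization.map_units (RR k m) s
    have h1 : cc p ∈ (m0 (DW k m)) ^ n := by
      rw [← ι_alg, ← hps, map_mul]
      exact Ideal.mul_mem_right _ _ hf
    have h2 : p ∈ (idealOfVars (Fin (m + 2)) k) ^ n := by
      rw [mem_pow_idealOfVars_iff']
      intro d hd
      rw [mem_m0_pow] at h1
      have := h1 d hd
      change MvPowerSeries.coeff d (p : Pw k m) = 0 at this
      rwa [MvPolynomial.coeff_coe] at this
    have h3 : (idealOfVars (Fin (m + 2)) k).map (algebraMap (Pol k m) (RR k m)) ≤ m0 (DR k m) := by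
      rw [Ideal.map_le_iff_le_comap, idealOfVars, Ideal.span_le]
      rintro _ ⟨i, rfl⟩
      change (DW k m).ε (ι (algebraMap (Pol k m) (RR k m) (X i))) = 0
      rw [ι_alg, cc_const]
      simp
    have h4 : algebraMap (Pol k m) (RR k m) p ∈ (m0 (DR k m)) ^ n := by
      have := Ideal.mem_map_of_mem (algebraMap (Pol k m) (RR k m)) h2
      rw [Ideal.map_pow] at this
      exact Ideal.pow_right_mono h3 n this
    rw [← hps] at h4
    exact (Ideal.mul_unit_mem_iff_mem _ hu).1 h4
  · rw [jacobson_A (DR k m), compat.map_m0]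
    intro n b
    refine ⟨algebraMap (Pol k m) (RR k m) (MvPowerSeries.truncTotal n b), ?_⟩
    rw [ι_alg, mem_m0_pow]
    intro d hd
    rw [map_sub]
    change _ - MvPowerSeries.coeff d ((MvPowerSeries.truncTotal n b : Pol k m) : Pw k m) = 0
    rw [MvPolynomial.coeff_coe, MvPowerSeries.coeff_truncTotal _ hd, sub_self]

/-! ### `h` is prime -/

lemma no_root [CharZero k] (r : MvPolynomial (Fin (m + 1)) k) : r ^ 2 - X 0 * r + X 0 ^ 3 ≠ 0 := by
  intro h
  let θ : MvPolynomial (Fin (m + 1)) k →ₐ[k] Polynomial k := aeval (fun _ => Polynomial.X)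
  have h1 := congrArg θ h
  rw [map_add, map_sub, map_mul, map_pow, map_pow, map_zero] at h1
  have hX : θ (X 0) = Polynomial.X := by simp [θ]
  rw [hX] at h1
  set t := θ r
  have h2 : (2 * t - Polynomial.X) ^ 2 = Polynomial.X ^ 2 - 4 * Polynomial.X ^ 3 := by
    linear_combination 4 * h1
  have h3 := congrArg Polynomial.natDegree h2
  rw [Polynomial.natDegree_pow] at h3
  have h4 : (Polynomial.X ^ 2 - 4 * Polynomial.X ^ 3 : Polynomial k).natDegree = 3 := by
    have : (Polynomial.X ^ 2 - 4 * Polynomial.X ^ 3 : Polynomial k) =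
      Polynomial.X ^ 2 - Polynomial.C 4 * Polynomial.X ^ 3 := by
      rw [map_ofNat]
    rw [this]
    compute_degree!
  omega

lemma prime_hpol [CharZero k] : Prime (hpol : Pol k m) := by
  rw [← MulEquiv.prime_iff (finSuccEquiv k (m + 1)).toMulEquiv]
  have him : (finSuccEquiv k (m + 1)).toMulEquiv hpol = Polynomial.X ^ 2 -
      Polynomial.C (X 0) * Polynomial.X + Polynomial.C (X 0 ^ 3) := by
    change (finSuccEquiv k (m + 1)) hpol = _
    unfold hpol
    have h1 : (1 : Fin (m + 2)) = Fin.succ 0 := Fin.succ_zero_eq_one.symm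
    rw [map_add, map_sub, map_mul, map_pow, map_pow, h1, finSuccEquiv_X_zero, finSuccEquiv_X_succ,
      map_pow]
  rw [him, ← irreducible_iff_prime]
  have hm : (Polynomial.X ^ 2 - Polynomial.C (X 0) * Polynomial.X + Polynomial.C (X 0 ^ 3) :
      Polynomial (MvPolynomial (Fin (m + 1)) k)).Monic := by
    monicity!
  have hd : (Polynomial.X ^ 2 - Polynomial.C (X 0) * Polynomial.X + Polynomial.C (X 0 ^ 3) :
      Polynomial (MvPolynomial (Fin (m + 1)) k)).natDegree = 2 := by
    compute_degree!
  rw [hm.irreducible_iff_roots_eq_zero_of_degree_le_three (by rw [hd]) (by rw [hd]; norm_num)]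
  rw [Multiset.eq_zero_iff_forall_notMem]
  intro r hr
  rw [Polynomial.mem_roots hm.ne_zero, Polynomial.IsRoot] at hr
  simp only [Polynomial.eval_add, Polynomial.eval_sub, Polynomial.eval_pow, Polynomial.eval_mul,
    Polynomial.eval_X, Polynomial.eval_C] at hr
  exact no_root r hr

lemma alg_inj : Function.Injective (algebraMap (Pol k m) (RR k m)) :=
  IsLocalization.injective (RR k m) (PP k m).primeCompl_le_nonZeroDivisors

lemma prime_alg {p : Pol k m} (hp : Prime p) (hp0 : constantCoeff p = 0) :
    Prime (algebraMap (Pol k m) (RR k m) p) := by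
  have hne : algebraMap (Pol k m) (RR k m) p ≠ 0 := by
    intro h
    apply hp.ne_zero
    apply alg_inj
    rw [h, map_zero]
  rw [← Ideal.span_singleton_prime hne, ← Set.image_singleton, ← Ideal.map_span]
  apply IsLocalization.isPrime_of_isPrime_disjoint (PP k m).primeCompl
  · rw [Ideal.span_singleton_prime hp.ne_zero]
    exact hp
  · rw [Set.disjoint_left]
    intro s hs hs'
    rw [SetLike.mem_coe, Ideal.mem_span_singleton] at hs'
    obtain ⟨c, rfl⟩ := hs'
    apply hs
    change constantCoeff (p * c) = 0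
    rw [map_mul, hp0, zero_mul]

lemma prime_h [CharZero k] : Prime (DR k m).h := prime_alg prime_hpol (by simp [hpol])

instance : IsIntegrallyClosed (RR k m) :=
  isIntegrallyClosed_of_isLocalization (RR k m) (PP k m).primeCompl
    (PP k m).primeCompl_le_nonZeroDivisors

lemma DW_h_ne [CharZero k] : (DW k m).h ≠ 0 := by
  rw [← cc_h]
  intro h
  apply (prime_hpol (k := k) (m := m)).ne_zero
  have : ((hpol : Pol k m) : Pw k m) = ((0 : Pol k m) : Pw k m) := by
    rw [MvPolynomial.coe_zero]
    exact h
  exact MvPolynomial.coe_injective _ _ this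

lemma maxIdeal_eq : IsLocalRing.maximalIdeal (RR k m) = m0 (DR k m) := by
  rw [← jacobson_A (DR k m), IsLocalRing.jacobson_eq_maximalIdeal ⊥ bot_ne_top]

variable (k m) in
lemma dim_RR : ringKrullDim (RR k m) = (m + 2 : ℕ) := by
  rw [← IsRegularLocalRing.spanFinrank_maximalIdeal]
  have h := spanFinrank_of_derivations (k := k) (A := RR k m) (n := m + 2) (DR k m).ε
    maxIdeal_eq.symm
    (fun j => (MvPowerSeries.coeff (Finsupp.single j 1)).toAddMonoidHom.comp
      (ι (k := k) (m := m)).toAddMonoidHom)
    (fun j f g => by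
      change MvPowerSeries.coeff (Finsupp.single j 1) (ι (f * g)) =
        MvPowerSeries.constantCoeff (ι f) * MvPowerSeries.coeff (Finsupp.single j 1) (ι g) +
        MvPowerSeries.coeff (Finsupp.single j 1) (ι f) * MvPowerSeries.constantCoeff (ι g)
      rw [map_mul, coeff_single_mul])
    (fun i => algebraMap (Pol k m) (RR k m) (X i))
    (fun i => by
      change (DW k m).ε (ι (algebraMap (Pol k m) (RR k m) (X i))) = 0
      rw [ι_alg, cc_const]
      simp)
    (fun i j => by
      change MvPowerSeries.coeff (Finsupp.single j 1) (ι (algebraMap (Pol k m) (RR k m) (X i))) = _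
      rw [ι_alg, cc_X, coeff_single_X]
      simp only [eq_comm])
    (by
      rw [maxIdeal_eq, m0_eq, ← range_X_eq]
      rfl)
  rw [h]

end Pool.Agent.H72.Sat
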