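import Pool.Agent.H72.Sat.Defs

namespace Pool.Agent.H72.Sat

variable {k : Type} [Field k] {m : ℕ} {A : Type} [CommRing A] [IsDomain A] (D : Datum k m A)
  (K : Type) [Field K] [Algebra A K]
  [IsFractionRing A K] (Ω : Type) [Field Ω] [Algebra K Ω]

theorem saturated_G [IsIntegrallyClosed A] (hp : Prime D.h) :
    IsSaturated A K (Fin 3 → K) Ω (G D K) := by
  intro η hη hdom
  obtain ⟨ζ, hζ, hdom⟩ := hdom
  obtain ⟨z, hz, rfl⟩ := hζ
  have hη' : ∀ i, IsIntegral A (η i) := by
    intro i
    let φ : G D K →+* A := (Pi.evalRingHom (fun _ : Fin 3 => A) i).comp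
      ((G0 D).val.toRingHom.comp (eG D K).symm.toRingHom)
    refine IsIntegral.map_of_comp_eq φ (Pi.evalRingHom (fun _ : Fin 3 => K) i) ?_ hη
    ext g
    obtain ⟨z, rfl⟩ := (eG D K).surjective g
    change algebraMap A K (((eG D K).symm (eG D K z)).1 i) = (eG D K z).1 i
    rw [RingEquiv.symm_apply_apply]
    rfl
  have hex : ∀ i, ∃ w, algebraMap A K w = η i := fun i =>
    IsIntegrallyClosed.isIntegral_iff.1 (hη' i)
  choose w hw using hex
  have hηw : η = inc K w := by
    funext i
    rw [inc_apply, hw]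
  have hinjK := IsFractionRing.injective A K
  refine ⟨w, sat_key D hp hz ?_, hηw.symm⟩
  intro i j
  obtain ⟨h1, h2⟩ := hdom (projHom K Ω i) (projHom K Ω j)
  simp only [projHom_apply, hηw] at h1 h2
  change algebraMap K Ω (algebraMap A K (z i)) = algebraMap K Ω (algebraMap A K (z j)) →
    algebraMap K Ω (algebraMap A K (w i)) = algebraMap K Ω (algebraMap A K (w j)) at h1
  by_cases hij : z i = z j
  · have h3 := h1 (by rw [hij])
    have hwij : w i = w j := hinjK ((algebraMap K Ω).injective h3)
    exact ⟨0, by rw [hwij]; ring⟩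
  · have hne : algebraMap K Ω (algebraMap A K (z i)) ≠ algebraMap K Ω (algebraMap A K (z j)) :=
      fun h => hij (hinjK ((algebraMap K Ω).injective h))
    obtain ⟨_, hint⟩ := h2 hne
    set t : K := (algebraMap A K (w i) - algebraMap A K (w j)) /
      (algebraMap A K (z i) - algebraMap A K (z j)) with ht
    have hint' : ((algebraMap K Ω).comp (algebraMap A K)).IsIntegralElem (algebraMap K Ω t) := by
      rw [ht, map_div₀, map_sub, map_sub]
      exact hint
    obtain ⟨P, hP, hP'⟩ := hint'
    have hti : IsIntegral A t := by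
      refine ⟨P, hP, ?_⟩
      apply (algebraMap K Ω).injective
      rw [map_zero, Polynomial.hom_eval₂]
      exact hP'
    obtain ⟨r, hr⟩ := IsIntegrallyClosed.isIntegral_iff.1 hti
    refine ⟨r, ?_⟩
    apply hinjK
    rw [map_sub, map_mul, hr, map_sub, ht]
    have : algebraMap A K (z i) - algebraMap A K (z j) ≠ 0 := by
      intro h
      exact hij (hinjK (sub_eq_zero.1 h))
    field_simp

theorem not_saturated_G (hh : D.h ≠ 0) (p q : A) (hpq : D.h = p * q) (εp : D.ε p = 0)
    (δp : D.δ p = 1) (εq : D.ε q = 0) :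
    ¬ IsSaturated A K (Fin 3 → K) Ω (G D K) := by
  intro hsat
  have hz : (![D.h + p, p, 0] : Fin 3 → A) ∈ G0 D := ⟨by simp [εp], 1, by simp, by simp [δp]⟩
  have hwn : (![D.h, 0, 0] : Fin 3 → A) ∉ G0 D := by
    rintro ⟨_, a, ha, ha'⟩
    simp only [Matrix.cons_val_zero, Matrix.cons_val_one, Matrix.cons_val, sub_zero, map_zero,
      sub_self] at ha ha'
    have h1 : D.h * a = D.h * 1 := by rw [← ha, mul_one]
    rw [mul_left_cancel₀ hh h1, map_one] at ha'
    exact one_ne_zero ha'
  have hmem := hsat (inc K ![D.h, 0, 0]) ?_ ⟨inc K ![D.h + p, p, 0], ⟨_, hz, rfl⟩, ?_⟩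
  · obtain ⟨w, hw, hw'⟩ := hmem
    rw [inc_inj K hw'] at hw
    exact hwn hw
  · -- integrality
    let d : G D K := eG D K (algebraMap A (G0 D) D.h)
    refine ⟨Polynomial.X ^ 2 - Polynomial.C d * Polynomial.X, ?_, ?_⟩
    · have : (Polynomial.X ^ 2 - Polynomial.C d * Polynomial.X : Polynomial (G D K)) =
          Polynomial.X ^ (1 + 1) + (- (Polynomial.C d * Polynomial.X)) := by ring
      rw [this]
      apply Polynomial.monic_X_pow_add
      rw [Polynomial.degree_neg]
      exact lt_of_le_of_lt (Polynomial.degree_C_mul_X_le d) (by norm_num)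
    · rw [Polynomial.eval₂_sub, Polynomial.eval₂_mul, Polynomial.eval₂_pow, Polynomial.eval₂_X,
        Polynomial.eval₂_C]
      funext i
      change (inc K ![D.h, 0, 0] i) ^ 2 - algebraMap A K D.h * inc K ![D.h, 0, 0] i = 0
      rw [inc_apply]
      fin_cases i
      · simp
        ring
      · simp
      · simp
  · -- domination
    intro ψ₁ ψ₂
    obtain ⟨i, hi⟩ := algHom_pi ψ₁
    obtain ⟨j, hj⟩ := algHom_pi ψ₂
    rw [hi, hi, hj, hj]
    simp only [inc_apply]
    set z : Fin 3 → A := ![D.h + p, p, 0] with hzdef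
    set w : Fin 3 → A := ![D.h, 0, 0] with hwdef
    have z0 : z 0 = D.h + p := rfl
    have z1 : z 1 = p := rfl
    have z2 : z 2 = 0 := rfl
    have w0 : w 0 = D.h := rfl
    have w1 : w 1 = 0 := rfl
    have w2 : w 2 = 0 := rfl
    have hq1 : IsUnit (q + 1) := by
      apply D.unit
      rw [map_add, εq, map_one]
      norm_num
    obtain ⟨u, hu⟩ := hq1.exists_right_inv
    have hsymm : ∀ i j, (∃ r, w i - w j = r * (z i - z j)) → ∃ r, w j - w i = r * (z j - z i) := by
      rintro i j ⟨r, hr⟩
      exact ⟨r, by linear_combination (-1 : A) * hr⟩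
    have e01 : ∃ r, w 0 - w 1 = r * (z 0 - z 1) := ⟨1, by rw [z0, z1, w0, w1]; ring⟩
    have e12 : ∃ r, w 1 - w 2 = r * (z 1 - z 2) := ⟨0, by rw [z1, z2, w1, w2]; ring⟩
    have e02 : ∃ r, w 0 - w 2 = r * (z 0 - z 2) := ⟨q * u, by
      rw [z0, z2, w0, w2, hpq]
      linear_combination (-(p * q)) * hu⟩
    have eii : ∀ i, ∃ r, w i - w i = r * (z i - z i) := fun i => ⟨0, by ring⟩
    have hr : ∃ r, w i - w j = r * (z i - z j) := by
      fin_cases i <;> fin_cases j
      · exact eii 0
      · exact e01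
      · exact e02
      · exact hsymm _ _ e01
      · exact eii 1
      · exact e12
      · exact hsymm _ _ e02
      · exact hsymm _ _ e12
      · exact eii 2
    obtain ⟨r, hr⟩ := hr
    have hinjK := IsFractionRing.injective A K
    constructor
    · intro h
      have h1 : z i = z j := hinjK ((algebraMap K Ω).injective h)
      rw [h1, sub_self, mul_zero] at hr
      rw [sub_eq_zero.1 hr]
    · intro h
      have h1 : z i - z j ≠ 0 := fun h' => h (by rw [sub_eq_zero.1 h'])
      have h2 : (algebraMap K Ω (algebraMap A K (w i)) - algebraMap K Ω (algebraMap A K (w j))) /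
          (algebraMap K Ω (algebraMap A K (z i)) - algebraMap K Ω (algebraMap A K (z j)))
          = algebraMap K Ω (algebraMap A K r) := by
        rw [← map_sub, ← map_sub, ← map_sub, ← map_sub, hr, map_mul, map_mul]
        rw [mul_div_assoc, div_self, mul_one]
        intro h3
        apply h1
        apply hinjK
        rw [map_zero]
        apply (algebraMap K Ω).injective
        rw [h3, map_zero]
      rw [h2]
      refine ⟨(compositum K (Fin 3 → K) Ω).algebraMap_mem _, ?_⟩
      exact RingHom.isIntegralElem_map ((algebraMap K Ω).comp (algebraMap A K))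

end Pool.Agent.H72.Sat
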