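import Pool.Agent.H72.Sat.Main
import Pool.Agent.H18.SatPow.A
import Pool.Agent.H83.SatDim

set_option autoImplicit false

namespace Pool.Agent.H72.Sat

open MvPowerSeries
open Pool.Agent.H18.SatPow (mem_pow_span_X)

variable (k : Type) [Field k] (m : ℕ)

/-- polynomials in `m + 2` variables -/
abbrev Pol := MvPolynomial (Fin (m + 2)) k
/-- power series in `m + 2` variables -/
abbrev Pw := MvPowerSeries (Fin (m + 2)) k

variable {k m}

lemma coeff_single_mul (f g : Pw k m) (i : Fin (m + 2)) : coeff (Finsupp.single i 1) (f * g) =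
    constantCoeff f * coeff (Finsupp.single i 1) g +
      coeff (Finsupp.single i 1) f * constantCoeff g := by
  classical
  rw [coeff_mul, Finsupp.antidiagonal_single]
  simp [Finset.Nat.antidiagonal_succ]

lemma coeff_single_X (i j : Fin (m + 2)) :
    coeff (Finsupp.single i 1) (X j : Pw k m) = if i = j then 1 else 0 := by
  classical
  rw [coeff_X]
  by_cases h : i = j
  · rw [if_pos h, if_pos (by rw [h])]
  · rw [if_neg h, if_neg]
    intro h'
    apply h
    have := congrArg (fun t => t i) h'
    simp only [Finsupp.single_eq_same] at this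
    by_contra hne
    rw [Finsupp.single_eq_of_ne hne] at this
    exact one_ne_zero this

lemma ker_decomp {f : Pw k m} (hf : constantCoeff f = 0) :
    ∃ (a : Fin (m + 1) → Pw k m) (b : Pw k m), f = (∑ i, a i * X i.succ) + b * X 0 := by
  have h1 : f ∈ (Ideal.span (Set.range X) : Ideal (Pw k m)) := by
    rw [← pow_one (Ideal.span (Set.range X) : Ideal (Pw k m)), mem_pow_span_X]
    intro d hd
    have h3 : d = 0 := (Finsupp.degree_eq_zero_iff _).1 (by omega)
    rw [h3]
    exact hf
  obtain ⟨c, hc⟩ := (Ideal.mem_span_range_iff_exists_fun).1 h1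
  refine ⟨fun i => c i.succ, c 0, ?_⟩
  rw [← hc, Fin.sum_univ_succ, add_comm]

variable (k m) in
/-- the datum on `k[[X₀, …, X_{m+1}]]`: `ε` is the constant coefficient, `δ` is the coefficient of
`X₀` and `h = X₀² - X₁ X₀ + X₁³`. -/
noncomputable def DW : Datum k (m + 1) (Pw k m) where
  ε := constantCoeff
  δ := (coeff (Finsupp.single 0 1)).toAddMonoidHom
  δ_mul := fun f g => coeff_single_mul f g 0
  h := X 0 ^ 2 - X 1 * X 0 + X 1 ^ 3
  x := fun i => X i.succ
  y := X 0
  εh := by simp
  δh := by
    change coeff (Finsupp.single 0 1) (X 0 ^ 2 - X 1 * X 0 + X 1 ^ 3 : Pw k m) = 0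
    have h3 : (X 1 ^ 3 : Pw k m) = X 1 * (X 1 * X 1) := by ring
    rw [map_add, map_sub, sq, h3, coeff_single_mul, coeff_single_mul, coeff_single_mul]
    simp
  εx := by simp
  εy := by simp
  δx := by
    intro i
    change coeff (Finsupp.single 0 1) (X i.succ : Pw k m) = 0
    rw [coeff_single_X, if_neg (Fin.succ_ne_zero i).symm]
  δy := by
    change coeff (Finsupp.single 0 1) (X 0 : Pw k m) = 1
    rw [coeff_single_X, if_pos rfl]
  ker := by
    intro f hf
    exact ker_decomp hf
  unit := by
    intro f hf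
    rw [isUnit_iff_constantCoeff]
    exact isUnit_iff_ne_zero.2 hf

lemma range_X_eq {A : Type} (v : Fin (m + 2) → A) :
    (insert (v 0) (Set.range fun i : Fin (m + 1) => v i.succ) : Set A) = Set.range v := by
  ext f
  simp only [Set.mem_insert_iff, Set.mem_range, Fin.exists_fin_succ]
  constructor
  · rintro (h | h)
    · exact Or.inl h.symm
    · exact Or.inr h
  · rintro (h | h)
    · exact Or.inl h.symm
    · exact Or.inr h

lemma m0_DW : m0 (DW k m) = Ideal.span (Set.range X) := by
  rw [m0_eq, ← range_X_eq]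
  rfl

lemma mem_m0_pow {n : ℕ} {f : Pw k m} : f ∈ (m0 (DW k m)) ^ n ↔
    ∀ d : Fin (m + 2) →₀ ℕ, d.degree < n → coeff d f = 0 := by
  rw [m0_DW, mem_pow_span_X]

lemma complete_m0 : IsAdicComplete (m0 (DW k m)) (Pw k m) := by
  rw [m0_DW]
  infer_instance

lemma DW_x0 : (DW k m).x 0 = X 1 := by
  change (X (Fin.succ 0) : Pw k m) = X 1
  rw [Fin.succ_zero_eq_one]

/-- the two analytic branches of `h` -/
lemma factor : ∃ p q : Pw k m, (DW k m).h = p * q ∧ (DW k m).ε p = 0 ∧ (DW k m).δ p = 1 ∧
    (DW k m).ε q = 0 := by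
  have hc := complete_m0 (k := k) (m := m)
  have hm : Polynomial.Monic (Polynomial.X ^ (1 + 1) +
      (-Polynomial.X + Polynomial.C (X 1)) : Polynomial (Pw k m)) := by
    apply Polynomial.monic_X_pow_add
    refine lt_of_le_of_lt (Polynomial.degree_add_le _ _) ?_
    rw [Polynomial.degree_neg, Polynomial.degree_X]
    refine max_lt (by norm_num) (lt_of_le_of_lt Polynomial.degree_C_le (by norm_num))
  have hx1 : (DW k m).ε (X 1) = 0 := by
    change constantCoeff (X 1 : Pw k m) = 0
    simp
  have hδx1 : (DW k m).δ (X 1) = 0 := by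
    rw [← DW_x0]
    exact (DW k m).δx 0
  obtain ⟨s, hs, hs'⟩ := HenselianRing.is_henselian (I := m0 (DW k m)) _ hm 0
    (by
      simp only [Polynomial.eval_add, Polynomial.eval_pow, Polynomial.eval_neg, Polynomial.eval_X,
        Polynomial.eval_C]
      change (DW k m).ε _ = 0
      rw [map_add, map_add, map_neg, map_pow, map_zero, hx1]
      ring)
    (by
      have : Polynomial.eval 0 (Polynomial.derivative (Polynomial.X ^ (1 + 1) +
        (-Polynomial.X + Polynomial.C (X 1)) : Polynomial (Pw k m))) = -1 := by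
        simp
      rw [this, map_neg, map_one]
      exact isUnit_one.neg)
  rw [sub_zero] at hs'
  have hs0 : (DW k m).ε s = 0 := hs'
  have hroot : s ^ 2 - s + X 1 = 0 := by
    have := hs
    simp only [Polynomial.IsRoot, Polynomial.eval_add, Polynomial.eval_pow, Polynomial.eval_neg,
      Polynomial.eval_X, Polynomial.eval_C] at this
    rw [← this]
    ring
  refine ⟨X 0 - X 1 * s, X 0 - X 1 + X 1 * s, ?_, ?_, ?_, ?_⟩
  · change (X 0 ^ 2 - X 1 * X 0 + X 1 ^ 3 : Pw k m) = _
    linear_combination (X 1 : Pw k m) ^ 2 * hroot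
  · change (DW k m).ε ((DW k m).y - X 1 * s) = 0
    rw [map_sub, map_mul, hx1, (DW k m).εy]
    ring
  · change (DW k m).δ ((DW k m).y - X 1 * s) = 1
    rw [map_sub, (DW k m).δ_mul, hx1, hδx1, (DW k m).δy]
    ring
  · change (DW k m).ε ((DW k m).y - X 1 + X 1 * s) = 0
    rw [map_add, map_sub, map_mul, hx1, (DW k m).εy]
    ring

end Pool.Agent.H72.Sat
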